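import Mathlib

/-! Algebraic independence: adjoining one element, exchange, and places. -/

set_option autoImplicit false

namespace Pool.Agent.Y200.V1

open MvPolynomial

universe u v w

variable {k : Type u} {Ω : Type v} [Field k] [Field Ω] [Algebra k Ω]

theorem indep_cons_iff {n : ℕ} (x : Fin n → Ω) (t : Ω) :
    AlgebraicIndependent k (Fin.cons t x : Fin (n + 1) → Ω) ↔
      AlgebraicIndependent k x ∧
        Transcendental (IntermediateField.adjoin k (Set.range x)) t := by
  rw [IntermediateField.transcendental_adjoin_iff, ← AlgebraicIndependent.option_iff]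
  have h : (fun o : Option (Fin n) => o.elim t x) ∘ (finSuccEquiv n) =
      (Fin.cons t x : Fin (n + 1) → Ω) := by
    funext i
    refine Fin.cases ?_ (fun j => ?_) i
    · simp
    · simp
  rw [← h]
  exact algebraicIndependent_equiv (finSuccEquiv n)

theorem indep_exchange {n : ℕ} (x y : Fin n → Ω) (hx : AlgebraicIndependent k x)
    (h : ∀ i, IsAlgebraic (IntermediateField.adjoin k (Set.range y)) (x i)) :
    AlgebraicIndependent k y := by
  set K := IntermediateField.adjoin k (Set.range y) with hK
  let L : IntermediateField k Ω := (algebraicClosure K Ω).restrictScalars k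
  have hyL : ∀ i, y i ∈ L := fun i =>
    (algebraicClosure K Ω).algebraMap_mem ⟨y i, IntermediateField.subset_adjoin _ _ ⟨i, rfl⟩⟩
  let y' : Fin n → L := fun i => ⟨y i, hyL i⟩
  let x' : Fin n → L := fun i => ⟨x i, mem_algebraicClosure_iff.mpr (h i)⟩
  have hx' : AlgebraicIndependent k x' := by
    apply AlgebraicIndependent.of_comp L.val
    exact hx
  have hmap : (IntermediateField.adjoin k (Set.range y')).map L.val = K := by
    rw [IntermediateField.adjoin_map]
    congr 1
    ext z
    constructor
    · rintro ⟨_, ⟨i, rfl⟩, rfl⟩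
      exact ⟨i, rfl⟩
    · rintro ⟨i, rfl⟩
      exact ⟨y' i, ⟨i, rfl⟩, rfl⟩
  have halg : Algebra.IsAlgebraic (IntermediateField.adjoin k (Set.range y')) L := by
    refine ⟨fun z => ?_⟩
    have hz : IsAlgebraic K (z : Ω) := mem_algebraicClosure_iff.mp z.2
    obtain ⟨p, hp0, hp⟩ := hz
    let e : IntermediateField.adjoin k (Set.range y') ≃+* K :=
      ((IntermediateField.adjoin k (Set.range y')).equivMap L.val).toRingEquiv.trans
        (IntermediateField.equivOfEq hmap).toRingEquiv
    refine ⟨p.map (e.symm : K →+* _), ?_, ?_⟩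
    · exact (Polynomial.map_ne_zero_iff e.symm.injective).mpr hp0
    · apply Subtype.val_injective
      rw [Polynomial.aeval_def, Polynomial.eval₂_map] 
      change (L.val : L →+* Ω) (Polynomial.eval₂ _ _ _) = 0
      rw [Polynomial.hom_eval₂]
      rw [Polynomial.aeval_def] at hp
      rw [← hp]
      congr 1
      ext a
      change ((e.symm a : L) : Ω) = _
      obtain ⟨b, rfl⟩ := e.surjective a
      rw [e.symm_apply_apply]
      rfl
  rw [IntermediateField.isAlgebraic_adjoin_iff_top] at halg
  have h1 : IsTranscendenceBasis k y' := by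
    apply Algebra.IsAlgebraic.isTranscendenceBasis_of_lift_le_trdeg_of_finite k y'
    have := hx'.lift_cardinalMk_le_trdeg
    exact this
  have h2 := h1.1.map' (f := L.val) Subtype.val_injective
  exact h2

/-- A nonzero element which becomes zero at a place is transcendental over elements whose residues
are algebraically independent. -/
theorem indep_of_place {κ : Type w} [Field κ] [Algebra k κ] {n : ℕ} (O : Subalgebra k Ω)
    (π : O →ₐ[k] κ) (y : Fin n → O) (hy : AlgebraicIndependent k (fun i => π (y i))) (b : O)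
    (hb0 : (b : Ω) ≠ 0) (hb : π b = 0) :
    AlgebraicIndependent k (Fin.cons (b : Ω) (fun i => (y i : Ω)) : Fin (n + 1) → Ω) := by
  rw [algebraicIndependent_iff]
  intro G hG
  by_contra hG0
  let P := MvPolynomial.finSuccEquiv k n G
  have hP0 : P ≠ 0 := by
    intro h
    exact hG0 ((MvPolynomial.finSuccEquiv k n).injective (by rw [map_zero]; exact h))
  obtain ⟨Q, hQ, hQ0⟩ : ∃ Q : Polynomial (MvPolynomial (Fin n) k),
      P = Polynomial.X ^ P.rootMultiplicity 0 * Q ∧ Q.coeff 0 ≠ 0 := by
    obtain ⟨Q, h1, h2⟩ := Polynomial.exists_eq_pow_rootMultiplicity_mul_and_not_dvd P hP0 0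
    rw [map_zero, sub_zero] at h1 h2
    exact ⟨Q, h1, fun h => h2 (Polynomial.X_dvd_iff.mpr h)⟩
  have key : ∀ R : Polynomial (MvPolynomial (Fin n) k),
      aeval (Fin.cons (b : Ω) (fun i => (y i : Ω)) : Fin (n + 1) → Ω)
        ((MvPolynomial.finSuccEquiv k n).symm R) =
      O.val (Polynomial.eval₂ ((aeval y : MvPolynomial (Fin n) k →ₐ[k] O) : _ →+* O) b R) := by
    intro R
    have : ((aeval (Fin.cons (b : Ω) (fun i => (y i : Ω)) : Fin (n + 1) → Ω)).comp
        (MvPolynomial.finSuccEquiv k n).symm.toAlgHom : Polynomial (MvPolynomial (Fin n) k) →ₐ[k] Ω) =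
        O.val.comp (Polynomial.aevalTower (aeval y : MvPolynomial (Fin n) k →ₐ[k] O) b) := by
      apply Polynomial.algHom_ext'
      · apply MvPolynomial.algHom_ext
        intro i
        have h3 : (MvPolynomial.finSuccEquiv k n).symm (Polynomial.C (X i)) = X i.succ := by
          rw [AlgEquiv.symm_apply_eq, MvPolynomial.finSuccEquiv_X_succ]
        simp [h3]
      · have h3 : (MvPolynomial.finSuccEquiv k n).symm Polynomial.X = X 0 := by
          rw [AlgEquiv.symm_apply_eq, MvPolynomial.finSuccEquiv_X_zero]
        simp [h3]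
    exact DFunLike.congr_fun this R
  have h1 := key P
  rw [show (MvPolynomial.finSuccEquiv k n).symm P = G from AlgEquiv.symm_apply_apply _ _, hG] at h1
  have h2 : Polynomial.eval₂ ((aeval y : MvPolynomial (Fin n) k →ₐ[k] O) : _ →+* O) b P = 0 :=
    Subtype.val_injective h1.symm
  rw [hQ, Polynomial.eval₂_mul, Polynomial.eval₂_pow, Polynomial.eval₂_X] at h2
  have hb' : b ^ P.rootMultiplicity 0 ≠ 0 := by
    intro h
    apply hb0
    have h4 : (b : Ω) ^ P.rootMultiplicity 0 = 0 := congrArg Subtype.val h
    exact eq_zero_of_pow_eq_zero h4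
  have h3 := (mul_eq_zero.mp h2).resolve_left hb'
  have h4 := congrArg π h3
  rw [map_zero] at h4
  have h5 : (π : O →+* κ) (Polynomial.eval₂ ((aeval y : MvPolynomial (Fin n) k →ₐ[k] O) : _ →+* O) b Q)
    = aeval (fun i => π (y i)) (Q.coeff 0) := by
    rw [Polynomial.hom_eval₂]
    change Polynomial.eval₂ _ (π b) Q = _
    rw [hb, Polynomial.eval₂_at_zero]
    change π (aeval y _) = _
    exact MvPolynomial.comp_aeval_apply (f := y) (φ := π) (Q.coeff 0)
  exact hQ0 (hy.eq_zero_of_aeval_eq_zero _ (h5.symm.trans h4))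

end Pool.Agent.Y200.V1
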