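import Mathlib

/-! Places of fields. -/

set_option autoImplicit false

namespace Pool.Agent.Y200.V1

open Polynomial

universe u v w

/-- A place of `Ω`, trivial on `E`, at which the transcendental element `t` becomes a root of
`p`. -/
theorem exists_place {E : Type u} {Ω : Type v} [Field E] [Field Ω] [Algebra E Ω] (t : Ω)
    (ht : Transcendental E t) (p : E[X]) (hp : Irreducible p) :
    ∃ (κ : Type v) (_ : Field κ) (_ : Algebra E κ) (O : Subalgebra E Ω) (π : O →ₐ[E] κ),
      (∀ x : O, π x ≠ 0 → (x : Ω)⁻¹ ∈ O) ∧ (∀ x : Ω, x ∈ O ∨ x⁻¹ ∈ O) ∧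
      ∃ h : t ∈ O, aeval (π ⟨t, h⟩) p = 0 := by
  let A : Subalgebra E Ω := (aeval t : E[X] →ₐ[E] Ω).range
  have hpA : aeval t p ∈ A := ⟨p, rfl⟩
  have htA : t ∈ A := ⟨X, by simp⟩
  let I : Ideal A.toSubring := Ideal.span {⟨aeval t p, hpA⟩}
  have hinj : Function.Injective (aeval t : E[X] →ₐ[E] Ω) :=
    transcendental_iff_injective.mp ht
  have hI : I ≠ ⊤ := by
    intro h
    rw [Ideal.eq_top_iff_one, Ideal.mem_span_singleton'] at h
    obtain ⟨⟨a, f, hf⟩, ha⟩ := h
    have h1 : aeval t (f * p) = aeval t (1 : E[X]) := by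
      have := congrArg Subtype.val ha
      rw [map_mul, map_one]
      change a * _ = 1 at this
      rw [← this]
      congr 1
    exact hp.not_isUnit (IsUnit.of_mul_eq_one f (by rw [mul_comm]; exact hinj h1))
  obtain ⟨B, hAB, hIB⟩ := Ideal.image_subset_nonunits_valuationSubring I hI
  have hmem : ∀ a : E, algebraMap E Ω a ∈ B := fun a => hAB (A.algebraMap_mem a)
  let O : Subalgebra E Ω := { B.toSubring with algebraMap_mem' := hmem }
  let f : E →+* B := (algebraMap E Ω).codRestrict B hmem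
  let _ : Algebra E (IsLocalRing.ResidueField B) := ((IsLocalRing.residue B).comp f).toAlgebra
  let π : O →ₐ[E] IsLocalRing.ResidueField B :=
    { toFun := fun x => IsLocalRing.residue B ⟨x.1, x.2⟩
      map_one' := map_one (IsLocalRing.residue B)
      map_mul' := fun x y => map_mul (IsLocalRing.residue B) ⟨x.1, x.2⟩ ⟨y.1, y.2⟩
      map_zero' := map_zero (IsLocalRing.residue B)
      map_add' := fun x y => map_add (IsLocalRing.residue B) ⟨x.1, x.2⟩ ⟨y.1, y.2⟩
      commutes' := fun a => rfl }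
  refine ⟨IsLocalRing.ResidueField B, inferInstance, inferInstance, O, π, ?_, ?_, hAB htA, ?_⟩
  · intro x hx
    have h1 : IsUnit (⟨x.1, x.2⟩ : B) := (IsLocalRing.residue_ne_zero_iff_isUnit _).mp hx
    obtain ⟨y, hy⟩ := h1.exists_right_inv
    have h2 : x.1 * (y : Ω) = 1 := congrArg Subtype.val hy
    have h3 : (x : Ω)⁻¹ = y := inv_eq_of_mul_eq_one_right h2
    rw [h3]
    exact y.2
  · intro x
    exact B.mem_or_inv_mem x
  · have h1 : aeval (π ⟨t, hAB htA⟩) p = π ⟨aeval t p, hAB hpA⟩ := by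
      rw [Polynomial.aeval_algHom_apply]
      congr 1
      apply Subtype.ext
      change O.val (aeval _ p) = _
      rw [← Polynomial.aeval_algHom_apply]
      rfl
    rw [h1]
    have h2 : (aeval t p) ∈ B.nonunits := hIB ⟨_, Ideal.mem_span_singleton_self _, rfl⟩
    change IsLocalRing.residue B ⟨aeval t p, _⟩ = 0
    rw [IsLocalRing.residue_eq_zero_iff]
    exact (ValuationSubring.mem_nonunits_iff_exists_mem_maximalIdeal.mp h2).2

/-- an element integral over a valuation ring: the roots of `a z² + b z + c`, `a` a unit -/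
theorem quad_mem {E : Type u} {Ω : Type v} {κ : Type w} [Field E] [Field Ω] [Field κ] [Algebra E Ω]
    [Algebra E κ] (O : Subalgebra E Ω) (π : O →ₐ[E] κ)
    (hO : ∀ x : O, π x ≠ 0 → (x : Ω)⁻¹ ∈ O) (hV : ∀ x : Ω, x ∈ O ∨ x⁻¹ ∈ O)
    (a b c : O) (ha : π a ≠ 0) (z : Ω) (hz : (a : Ω) * z ^ 2 + b * z + c = 0) : z ∈ O := by
  rcases hV z with h | h
  · exact h
  · by_cases hz0 : z = 0
    · rw [hz0]; exact O.zero_mem
    have ha0 : (a : Ω) ≠ 0 := by
      intro h0
      exact ha (by rw [show a = 0 from Subtype.ext h0, map_zero])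
    have h1 : z = -((a : Ω)⁻¹ * (b + c * z⁻¹)) := by
      field_simp
      linear_combination hz
    rw [h1]
    exact O.neg_mem (O.mul_mem (hO a ha) (O.add_mem b.2 (O.mul_mem c.2 h)))

end Pool.Agent.Y200.V1
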